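import Mathlib

/-!
# Banach lattices: lattice homomorphisms, quotients, projectivity, semiprojectivity, inductive limits
-/

open Filter Topology

namespace Pool.Agent.X171.BL

universe u v w

/-- Real Banach lattices. -/
class BanachLattice (X : Type*) [NormedAddCommGroup X] [Lattice X] [NormedSpace ℝ X] : Prop where
  ordered : IsOrderedAddMonoid X
  smul : PosSMulMono ℝ X
  solid : HasSolidNorm X
  complete : CompleteSpace X

attribute [instance] BanachLattice.ordered BanachLattice.smul BanachLattice.solid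
  BanachLattice.complete

section
variable {X Y : Type*} [NormedAddCommGroup X] [Lattice X] [NormedSpace ℝ X]
  [NormedAddCommGroup Y] [Lattice Y] [NormedSpace ℝ Y]

/-- Lattice homomorphisms: bounded linear maps which preserve finite suprema and infima. -/
structure IsLatticeHom (T : X →L[ℝ] Y) : Prop where
  sup : ∀ x y, T (x ⊔ y) = T x ⊔ T y
  inf : ∀ x y, T (x ⊓ y) = T x ⊓ T y

/-- Quotient maps `X → X / J` by closed ideals, up to isometric lattice isomorphism: lattice
homomorphisms `Q` onto `Y` such that the norm of `Y` is the quotient norm. (The ideal `J` is the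
kernel of `Q`.) -/
structure IsQuotientMap (Q : X →L[ℝ] Y) : Prop where
  hom : IsLatticeHom Q
  norm_le : ∀ x, ‖Q x‖ ≤ ‖x‖
  lift : ∀ y, ∀ r : ℝ, ‖y‖ < r → ∃ x, Q x = y ∧ ‖x‖ < r

end

/-- Projective Banach lattices (de Pagter, Wickstead). -/
def Projective (P : Type w) [NormedAddCommGroup P] [Lattice P] [NormedSpace ℝ P] : Prop :=
  ∀ (X Y : Type v) [NormedAddCommGroup X] [Lattice X] [NormedSpace ℝ X] [BanachLattice X]
    [NormedAddCommGroup Y] [Lattice Y] [NormedSpace ℝ Y] [BanachLattice Y]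
    (Q : X →L[ℝ] Y), IsQuotientMap Q → ∀ T : P →L[ℝ] Y, IsLatticeHom T → ∀ ε : ℝ, 0 < ε →
      ∃ S : P →L[ℝ] X, IsLatticeHom S ∧ (∀ p, Q (S p) = T p) ∧ ‖S‖ ≤ (1 + ε) * ‖T‖

/-- Semiprojective Banach lattices. Here `B` is a separable Banach lattice, `q n : B → C n` is the
quotient map of `B` by an ideal `I n = ker (q n)`, the `I n` increase, `q' : B → D` is the quotient
map by the closure `I` of the union of the `I n`, and `π n : C n → D` is the canonical surjection
`B / I n → B / I`. -/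
def Semiprojective (A : Type w) [NormedAddCommGroup A] [Lattice A] [NormedSpace ℝ A] : Prop :=
  ∀ (B : Type v) [NormedAddCommGroup B] [Lattice B] [NormedSpace ℝ B] [BanachLattice B]
    [TopologicalSpace.SeparableSpace B]
    (C : ℕ → Type v) [∀ n, NormedAddCommGroup (C n)] [∀ n, Lattice (C n)]
    [∀ n, NormedSpace ℝ (C n)] [∀ n, BanachLattice (C n)]
    (D : Type v) [NormedAddCommGroup D] [Lattice D] [NormedSpace ℝ D] [BanachLattice D]
    (q : ∀ n, B →L[ℝ] C n) (q' : B →L[ℝ] D) (π : ∀ n, C n →L[ℝ] D),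
    (∀ n, IsQuotientMap (q n)) → IsQuotientMap q' →
    (∀ n x, q n x = 0 → q (n + 1) x = 0) →
    {x | q' x = 0} = closure (⋃ n, {x | q n x = 0}) →
    (∀ n x, π n (q n x) = q' x) →
    ∀ φ : A →L[ℝ] D, IsLatticeHom φ → ‖φ‖ ≤ 1 →
      ∃ n, ∀ ε : ℝ, 0 < ε → ∃ ψ : A →L[ℝ] C n, IsLatticeHom ψ ∧ ‖ψ‖ ≤ 1 + ε ∧
        ∀ a, π n (ψ a) = φ a

/-- the composites `A n → A (n + 1) → ... → A (n + k)` -/
def composite {A : ℕ → Type w} [∀ n, NormedAddCommGroup (A n)] [∀ n, NormedSpace ℝ (A n)]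
    (φ : ∀ n, A n →L[ℝ] A (n + 1)) (n : ℕ) : ∀ k : ℕ, A n →L[ℝ] A (n + k)
  | 0 => ContinuousLinearMap.id ℝ (A n)
  | k + 1 => (φ (n + k)).comp (composite φ n k)

/-- `E`, with the maps `ι n : A n → E`, is the inductive limit of the sequence of Banach lattices
`A n` with connecting maps `φ n : A n → A (n + 1)`: the `ι n` are lattice homomorphisms which are
compatible with the `φ n`, the norm of `ι n x` is the limit of the norms of the images of `x` in
the `A (n + k)`, and the union of the ranges of the `ι n` is dense. (So `ι` induces an isometric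
lattice isomorphism from the completion of the algebraic direct limit, divided by the null
vectors of its seminorm, onto `E`.) -/
structure IsInductiveLimit {A : ℕ → Type w} [∀ n, NormedAddCommGroup (A n)]
    [∀ n, Lattice (A n)] [∀ n, NormedSpace ℝ (A n)] (φ : ∀ n, A n →L[ℝ] A (n + 1))
    {E : Type u} [NormedAddCommGroup E] [Lattice E] [NormedSpace ℝ E]
    (ι : ∀ n, A n →L[ℝ] E) : Prop where
  hom : ∀ n, IsLatticeHom (ι n)
  compat : ∀ n x, ι (n + 1) (φ n x) = ι n x
  norm : ∀ n x, Tendsto (fun k => ‖composite φ n k x‖) atTop (𝓝 ‖ι n x‖)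
  dense : Dense (⋃ n, Set.range (ι n))

section
variable {X Y Z : Type*} [NormedAddCommGroup X] [Lattice X] [NormedSpace ℝ X]
  [NormedAddCommGroup Y] [Lattice Y] [NormedSpace ℝ Y]
  [NormedAddCommGroup Z] [Lattice Z] [NormedSpace ℝ Z]

lemma IsLatticeHom.comp {T : Y →L[ℝ] Z} {S : X →L[ℝ] Y} (hT : IsLatticeHom T)
    (hS : IsLatticeHom S) : IsLatticeHom (T.comp S) :=
  ⟨fun x y => by simp only [ContinuousLinearMap.comp_apply]; rw [hS.sup, hT.sup],
    fun x y => by simp only [ContinuousLinearMap.comp_apply]; rw [hS.inf, hT.inf]⟩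

lemma IsLatticeHom.abs {T : X →L[ℝ] Y} (hT : IsLatticeHom T) (x : X) : T |x| = |T x| := by
  change T (x ⊔ -x) = T x ⊔ -T x
  rw [hT.sup, map_neg]

lemma IsLatticeHom.nonneg {T : X →L[ℝ] Y} (hT : IsLatticeHom T) {x : X} (hx : 0 ≤ x) :
    0 ≤ T x := by
  have := hT.sup x 0
  rw [sup_eq_left.2 hx, map_zero] at this
  rw [this]
  exact le_sup_right

lemma IsLatticeHom.mono [IsOrderedAddMonoid X] [IsOrderedAddMonoid Y] {T : X →L[ℝ] Y}
    (hT : IsLatticeHom T) {x y : X} (h : x ≤ y) : T x ≤ T y := by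
  have := hT.nonneg (sub_nonneg.2 h)
  rw [map_sub] at this
  exact sub_nonneg.1 this

end

/-- projective Banach lattices are semiprojective -/
theorem Projective.semiprojective {A : Type w} [NormedAddCommGroup A] [Lattice A]
    [NormedSpace ℝ A] (hA : Projective.{v} A) : Semiprojective.{v} A := by
  intro B _ _ _ _ _ C _ _ _ _ D _ _ _ _ q q' π hq hq' _ _ hπ φ hφ hφ1
  refine ⟨0, fun ε hε => ?_⟩
  have hsurj : ∀ y : C 0, ∀ r : ℝ, ‖y‖ < r → ∃ x, q 0 x = y ∧ ‖x‖ < r := (hq 0).lift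
  have hπ0 : IsQuotientMap (π 0) := by
    refine ⟨⟨fun x y => ?_, fun x y => ?_⟩, fun y => ?_, fun z r hr => ?_⟩
    · obtain ⟨x, rfl, -⟩ := hsurj x (‖x‖ + 1) (by linarith)
      obtain ⟨y, rfl, -⟩ := hsurj y (‖y‖ + 1) (by linarith)
      rw [← (hq 0).hom.sup, hπ, hπ, hπ, hq'.hom.sup]
    · obtain ⟨x, rfl, -⟩ := hsurj x (‖x‖ + 1) (by linarith)
      obtain ⟨y, rfl, -⟩ := hsurj y (‖y‖ + 1) (by linarith)
      rw [← (hq 0).hom.inf, hπ, hπ, hπ, hq'.hom.inf]
    · refine le_of_forall_pos_le_add fun δ hδ => ?_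
      obtain ⟨x, rfl, hx⟩ := hsurj y (‖y‖ + δ) (by linarith)
      rw [hπ]
      exact (hq'.norm_le x).trans hx.le
    · obtain ⟨x, rfl, hx⟩ := hq'.lift z r hr
      exact ⟨q 0 x, hπ 0 x, ((hq 0).norm_le x).trans_lt hx⟩
  obtain ⟨S, hS1, hS2, hS3⟩ := hA (C 0) D (π 0) hπ0 φ hφ ε hε
  refine ⟨S, hS1, hS3.trans ?_, hS2⟩
  nlinarith [norm_nonneg φ]

end Pool.Agent.X171.BL
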