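import Pool.Agent.X171.BL.Cube

/-!
# Lifting lattice homomorphisms on `C([0,1]^Γ)` with control of finitely many norms
-/

open Filter Topology

namespace Pool.Agent.X171.BL

universe v

variable {Γ : Type} {X Y : Type v} [NormedAddCommGroup X] [Lattice X] [NormedSpace ℝ X]
  [BanachLattice X] [NormedAddCommGroup Y] [Lattice Y] [NormedSpace ℝ Y] [BanachLattice Y]

omit [BanachLattice X] in
lemma dense_gen (e : X) (u : Γ → X) : closure {g : C(K Γ, ℝ) | ∃ y, Gen e u g y} = ⊤ := by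
  apply ContinuousMap.sublattice_closure_eq_top
  · exact ⟨1, e, .one⟩
  · rintro f ⟨x, hx⟩ g ⟨y, hy⟩
    refine ⟨(-1 : ℝ) • ((-1 : ℝ) • x ⊔ (-1 : ℝ) • y), ?_⟩
    have := ((hx.smul (-1)).sup (hy.smul (-1))).smul (-1)
    have e1 : (-1 : ℝ) • ((-1 : ℝ) • f ⊔ (-1 : ℝ) • g) = f ⊓ g := by
      ext k
      simp only [neg_smul, one_smul, ContinuousMap.neg_apply, ContinuousMap.sup_apply,
        ContinuousMap.inf_apply]
      rcases le_total (f k) (g k) with h | h
      · rw [sup_eq_left.2 (neg_le_neg h), inf_eq_left.2 h, neg_neg]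
      · rw [sup_eq_right.2 (neg_le_neg h), inf_eq_right.2 h, neg_neg]
    rwa [e1] at this
  · rintro f ⟨x, hx⟩ g ⟨y, hy⟩
    exact ⟨_, hx.sup hy⟩
  · intro v x y
    by_cases hxy : x = y
    · subst hxy
      exact ⟨v x • 1, ⟨_, Gen.one.smul _⟩, by simp, by simp⟩
    · obtain ⟨γ, hγ⟩ := Function.ne_iff.1 hxy
      have hγ' : (x γ : ℝ) - y γ ≠ 0 := sub_ne_zero.2 fun h => hγ (Subtype.ext h)
      refine ⟨((v x * (-(y γ : ℝ)) + v y * x γ) / ((x γ : ℝ) - y γ)) • 1 +
        ((v x - v y) / ((x γ : ℝ) - y γ)) • pr γ,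
        ⟨_, (Gen.one.smul _).add ((Gen.pi γ).smul _)⟩, ?_, ?_⟩
      · simp [pr]
        field_simp
        ring
      · simp [pr]
        field_simp
        ring

omit [BanachLattice X] in
/-- lattice homomorphisms on `C([0,1]^Γ)` are determined by the values at `1` and the
coordinates -/
theorem hom_ext {S T : C(K Γ, ℝ) →L[ℝ] X} (hS : IsLatticeHom S) (hT : IsLatticeHom T)
    (h1 : S 1 = T 1) (h2 : ∀ γ, S (pr γ) = T (pr γ)) (f : C(K Γ, ℝ)) : S f = T f := by
  have hcl : IsClosed {f | S f = T f} := isClosed_eq S.continuous T.continuous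
  have hg : ∀ g y, Gen (S 1) (fun γ => S (pr γ)) g y → S g = y ∧ T g = y := by
    intro g y h
    induction h with
    | one => exact ⟨rfl, h1.symm⟩
    | pi γ => exact ⟨rfl, (h2 γ).symm⟩
    | add _ _ ih1 ih2 => exact ⟨by rw [map_add, ih1.1, ih2.1], by rw [map_add, ih1.2, ih2.2]⟩
    | smul r _ ih => exact ⟨by rw [map_smul, ih.1], by rw [map_smul, ih.2]⟩
    | sup _ _ ih1 ih2 => exact ⟨by rw [hS.sup, ih1.1, ih2.1], by rw [hT.sup, ih1.2, ih2.2]⟩
  have hsub : closure {g : C(K Γ, ℝ) | ∃ y, Gen (S 1) (fun γ => S (pr γ)) g y} ⊆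
      {f | S f = T f} := by
    refine closure_minimal ?_ hcl
    rintro g ⟨y, hy⟩
    exact (hg g y hy).1.trans (hg g y hy).2.symm
  rw [dense_gen] at hsub
  exact hsub trivial

/-- the calculus -/
theorem exists_hom' {e : X} {u : Γ → X} (hu : ∀ γ, 0 ≤ u γ ∧ u γ ≤ e) (he : 0 ≤ e) :
    ∃ S : C(K Γ, ℝ) →L[ℝ] X, IsLatticeHom S ∧ S 1 = e ∧ ∀ γ, S (pr γ) = u γ := by
  obtain ⟨S, h1, h2, -⟩ := exists_hom hu he
  exact ⟨S, h1, G_unique hu he (h2 1) (subset_closure Gen.one),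
    fun γ => G_unique hu he (h2 _) (subset_closure (Gen.pi γ))⟩

/-! ### Maps between function spaces -/

/-- forget the new coordinate -/
def forget (k : K (Option Γ)) : K Γ := fun γ => k (some γ)

lemma forget_continuous : Continuous (forget : K (Option Γ) → K Γ) := by
  unfold forget; fun_prop

/-- put the new coordinate equal to `0` -/
def zeroth (k : K Γ) : K (Option Γ) := fun o => o.elim 0 k

lemma zeroth_continuous : Continuous (zeroth : K Γ → K (Option Γ)) := by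
  refine continuous_pi fun o => ?_
  cases o with
  | none => exact continuous_const
  | some γ => exact continuous_apply γ

/-- composition with a continuous map -/
noncomputable def pull {A B : Type} (r : K A → K B) (hr : Continuous r) :
    C(K B, ℝ) →L[ℝ] C(K A, ℝ) :=
  LinearMap.mkContinuous
    { toFun := fun f => f.comp ⟨r, hr⟩
      map_add' := fun _ _ => rfl
      map_smul' := fun _ _ => rfl } 1 fun f => by
        rw [one_mul]
        exact (ContinuousMap.norm_le _ (norm_nonneg _)).2 fun k => f.norm_coe_le_norm _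

@[simp] lemma pull_apply {A B : Type} (r : K A → K B) (hr : Continuous r) (f : C(K B, ℝ))
    (k : K A) : pull r hr f k = f (r k) := rfl

lemma pull_hom {A B : Type} (r : K A → K B) (hr : Continuous r) :
    IsLatticeHom (pull r hr) :=
  ⟨fun f g => by ext k; rfl, fun f g => by ext k; rfl⟩

/-- multiplication with a continuous function -/
noncomputable def mulBy {A : Type} (g : C(K A, ℝ)) : C(K A, ℝ) →L[ℝ] C(K A, ℝ) :=
  LinearMap.mkContinuous
    { toFun := fun f => g * f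
      map_add' := fun _ _ => mul_add _ _ _
      map_smul' := fun r f => by
        ext k
        simp only [ContinuousMap.mul_apply, ContinuousMap.smul_apply, smul_eq_mul,
          RingHom.id_apply]
        ring } ‖g‖ fun f => norm_mul_le _ _

@[simp] lemma mulBy_apply {A : Type} (g f : C(K A, ℝ)) (k : K A) :
    mulBy g f k = g k * f k := rfl

lemma mulBy_hom {A : Type} (g : C(K A, ℝ)) (hg : 0 ≤ g) : IsLatticeHom (mulBy g) := by
  refine ⟨fun f f' => ?_, fun f f' => ?_⟩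
  · ext k
    simp only [mulBy_apply, ContinuousMap.sup_apply]
    exact mul_max_of_nonneg _ _ (hg k)
  · ext k
    simp only [mulBy_apply, ContinuousMap.inf_apply]
    exact mul_min_of_nonneg _ _ (hg k)

/-! ### Lattice algebra -/

lemma smul_inf' {Z : Type*} [NormedAddCommGroup Z] [Lattice Z] [NormedSpace ℝ Z]
    [IsOrderedAddMonoid Z] [PosSMulMono ℝ Z] {r : ℝ} (hr : 0 < r) (x y : Z) :
    r • (x ⊓ y) = r • x ⊓ r • y := by
  have h := smul_sup' hr (-x) (-y)
  rw [smul_neg, smul_neg, ← neg_inf, smul_neg, ← neg_inf] at h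
  exact neg_injective h

lemma key {e w b y z : X} (he : 0 ≤ e) {δ : ℝ} (hδ : 0 < δ) (hδ1 : δ ≤ 1) {M : ℝ}
    (hM : 1 ≤ M) (h1 : y ≤ b) (h2 : y ≤ M • (e - δ⁻¹ • (w ⊓ δ • e))) (h3 : b ≤ z + w)
    (hz : 0 ≤ z) : y ≤ z + δ • e := by
  have hM0 : 0 < M * δ⁻¹ := by positivity
  have hM1 : 1 ≤ M * δ⁻¹ := by
    have : 1 ≤ δ⁻¹ := (one_le_inv₀ hδ).2 hδ1
    nlinarith
  set a : X := (w - δ • e) ⊔ 0 with ha
  set c : X := -(w - δ • e) ⊔ 0 with hc
  have ha0 : 0 ≤ a := le_sup_right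
  have hac : a ⊓ c = 0 := posPart_inf_negPart_eq_zero (w - δ • e)
  have hw : w = w ⊓ δ • e + a := by
    rw [ha, eq_comm, ← eq_sub_iff_add_eq, sub_sup, sub_sub_cancel, sub_zero, inf_comm]
  have hv : δ • e - w ⊓ δ • e = c := by
    rw [hc, sub_inf, sub_self, neg_sub]
  have hδe : 0 ≤ δ • e := smul_nonneg hδ.le he
  have h4 : y - (z + δ • e) ≤ (M * δ⁻¹) • a := by
    have h5 : a ≤ (M * δ⁻¹) • a := by
      have := smul_le_smul_of_nonneg_right hM1 ha0
      rwa [one_smul] at this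
    refine le_trans ?_ h5
    rw [sub_le_iff_le_add]
    calc y ≤ z + w := h1.trans h3
      _ = z + (w ⊓ δ • e + a) := by rw [← hw]
      _ ≤ z + (δ • e + a) := by
        gcongr
        exact inf_le_right
      _ = a + (z + δ • e) := by abel
  have h5 : y - (z + δ • e) ≤ (M * δ⁻¹) • c := by
    have h6 : y - (z + δ • e) ≤ y := sub_le_self _ (add_nonneg hz hδe)
    refine h6.trans (h2.trans_eq ?_)
    rw [← hv, mul_smul, smul_sub δ⁻¹, smul_smul δ⁻¹, inv_mul_cancel₀ hδ.ne', one_smul]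
  have h6 := le_inf h4 h5
  rw [← smul_inf' hM0, hac, smul_zero] at h6
  exact sub_nonpos.1 h6

lemma norm_le_of_abs_le {Z : Type*} [NormedAddCommGroup Z] [Lattice Z] [HasSolidNorm Z]
    {x y : Z} (h : |x| ≤ |y|) : ‖x‖ ≤ ‖y‖ := HasSolidNorm.solid h

lemma norm_le_of_le {x y : X} (hx : 0 ≤ x) (h : x ≤ y) : ‖x‖ ≤ ‖y‖ := by
  apply norm_le_of_abs_le
  rw [abs_of_nonneg hx, abs_of_nonneg (hx.trans h)]
  exact h

/-! ### The lifting -/

/-- **Lifting with control of finitely many norms.** -/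
theorem main_lift (Q : X →L[ℝ] Y) (hQ : IsQuotientMap Q) (T : C(K Γ, ℝ) →L[ℝ] Y)
    (hT : IsLatticeHom T) (s : Finset ℕ) (P : ℕ → C(K Γ, ℝ)) (c : ℕ → ℝ)
    (hc : ∀ i ∈ s, ‖T (P i)‖ ≤ c i) (ε : ℝ) (hε : 0 < ε) :
    ∃ S : C(K Γ, ℝ) →L[ℝ] X, IsLatticeHom S ∧ (∀ f, Q (S f) = T f) ∧
      ∀ i ∈ s, ‖S (P i)‖ ≤ c i + ε := by
  classical
  -- lift the generators
  obtain ⟨x, hx, -⟩ := hQ.lift (T 1) (‖T 1‖ + 1) (by linarith)
  have hone : (0 : C(K Γ, ℝ)) ≤ 1 := fun _ => zero_le_one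
  have hQe : Q |x| = T 1 := by
    rw [hQ.hom.abs, hx, abs_of_nonneg (hT.nonneg hone)]
  have hl : ∀ γ : Γ, ∃ z, Q z = T (pr γ) := fun γ => by
    obtain ⟨z, hz, -⟩ := hQ.lift (T (pr γ)) (‖T (pr γ)‖ + 1) (by linarith)
    exact ⟨z, hz⟩
  choose z hz using hl
  have hQu : ∀ γ, Q (|z γ| ⊓ |x|) = T (pr γ) := by
    intro γ
    have h0 : (0 : C(K Γ, ℝ)) ≤ pr γ := fun k => (k γ).2.1
    have h1 : (pr γ : C(K Γ, ℝ)) ≤ 1 := fun k => (k γ).2.2
    rw [hQ.hom.inf, hQe, hQ.hom.abs, hz, abs_of_nonneg (hT.nonneg h0)]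
    exact inf_eq_left.2 (hT.mono h1)
  set e : X := |x| with he
  set u : Γ → X := fun γ => |z γ| ⊓ |x| with hu
  have he0 : 0 ≤ e := abs_nonneg x
  have hu0 : ∀ γ, 0 ≤ u γ ∧ u γ ≤ e := fun γ =>
    ⟨le_inf (abs_nonneg _) (abs_nonneg _), inf_le_right⟩
  obtain ⟨Ψ, hΨ, hΨ1, hΨ2⟩ := exists_hom' hu0 he0
  have hQΨ : ∀ f, Q (Ψ f) = T f := fun f =>
    hom_ext (S := Q.comp Ψ) (hQ.hom.comp hΨ) hT (by simp [hΨ1, hQe])
      (fun γ => by
        change Q (Ψ (pr γ)) = T (pr γ)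
        rw [hΨ2]
        exact hQu γ) f
  -- the correction `w`
  have hw : ∀ i, ∃ y, i ∈ s → Q y = T |P i| ∧ ‖y‖ < c i + ε / 2 := by
    intro i
    by_cases hi : i ∈ s
    · obtain ⟨y, hy1, hy2⟩ := hQ.lift (T |P i|) (c i + ε / 2) (by
        rw [hT.abs, norm_abs_eq_norm]
        linarith [hc i hi])
      exact ⟨y, fun _ => ⟨hy1, hy2⟩⟩
    · exact ⟨0, fun h => absurd h hi⟩
  choose y hy using hw
  set b : ℕ → X := fun i => Ψ |P i| with hb
  have hb0 : ∀ i, 0 ≤ b i := fun i => hΨ.nonneg (abs_nonneg _)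
  set z' : ℕ → X := fun i => |y i| ⊓ b i with hz'
  have hz0 : ∀ i, 0 ≤ z' i := fun i => le_inf (abs_nonneg _) (hb0 i)
  have hzn : ∀ i ∈ s, ‖z' i‖ ≤ c i + ε / 2 := by
    intro i hi
    have h1 : ‖z' i‖ ≤ ‖|y i|‖ := norm_le_of_le (hz0 i) inf_le_left
    rw [norm_abs_eq_norm] at h1
    exact h1.trans (hy i hi).2.le
  set w : X := ∑ i ∈ s, (b i - z' i) with hw
  have hbz : ∀ i, 0 ≤ b i - z' i := fun i => sub_nonneg.2 inf_le_right
  have hw0 : 0 ≤ w := Finset.sum_nonneg fun i _ => hbz i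
  have hbw : ∀ i ∈ s, b i ≤ z' i + w := by
    intro i hi
    have h1 : b i - z' i ≤ w := Finset.single_le_sum (f := fun i => b i - z' i)
      (fun i _ => hbz i) hi
    rw [sub_le_iff_le_add'] at h1
    exact h1
  have hQw : Q w = 0 := by
    rw [hw, map_sum]
    refine Finset.sum_eq_zero fun i hi => ?_
    have h0 : 0 ≤ T |P i| := hT.nonneg (abs_nonneg _)
    rw [map_sub, hz', hQ.hom.inf, hQ.hom.abs, (hy i hi).1, hb]
    simp only [hQΨ]
    rw [abs_of_nonneg h0, inf_idem, sub_self]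
  -- the new generator
  set δ : ℝ := min 1 (ε / 2 / (‖e‖ + 1)) with hδ
  have hδ0 : 0 < δ := by positivity
  have hδ1 : δ ≤ 1 := min_le_left _ _
  have hδe : δ * ‖e‖ ≤ ε / 2 := by
    have h1 : δ ≤ ε / 2 / (‖e‖ + 1) := min_le_right _ _
    calc δ * ‖e‖ ≤ ε / 2 / (‖e‖ + 1) * (‖e‖ + 1) := by
          gcongr
          linarith
      _ = ε / 2 := by field_simp
  set v : X := δ⁻¹ • (w ⊓ δ • e) with hv
  have hv0 : 0 ≤ v := smul_nonneg (inv_pos.2 hδ0).le (le_inf hw0 (smul_nonneg hδ0.le he0))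
  have hve : v ≤ e := by
    have h1 := smul_le_smul_of_nonneg_left (inf_le_right : w ⊓ δ • e ≤ δ • e) (inv_pos.2 hδ0).le
    rwa [smul_smul, inv_mul_cancel₀ hδ0.ne', one_smul] at h1
  have hQv : Q v = 0 := by
    have h0 : 0 ≤ δ • T 1 := smul_nonneg hδ0.le (hT.nonneg hone)
    rw [hv, map_smul, hQ.hom.inf, hQw, map_smul, hQe, inf_eq_left.2 h0, smul_zero]
  obtain ⟨Ψ', hΨ', hΨ'1, hΨ'2⟩ := exists_hom' (Γ := Option Γ) (e := e)
    (u := fun o => o.elim v u) (fun o => by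
      cases o with
      | none => exact ⟨hv0, hve⟩
      | some γ => exact hu0 γ) he0
  have hcomp : ∀ f, Ψ' (pull forget forget_continuous f) = Ψ f := fun f =>
    hom_ext (S := Ψ'.comp (pull forget forget_continuous)) (hΨ'.comp (pull_hom _ _)) hΨ
      (by
        change Ψ' 1 = Ψ 1
        rw [hΨ'1, hΨ1])
      (fun γ => by
        change Ψ' (pr (some γ)) = Ψ (pr γ)
        rw [hΨ'2, hΨ2]
        rfl) f
  have hQΨ' : ∀ F, Q (Ψ' F) = T (pull zeroth zeroth_continuous F) := fun F =>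
    hom_ext (S := Q.comp Ψ') (T := T.comp (pull zeroth zeroth_continuous))
      (hQ.hom.comp hΨ') (hT.comp (pull_hom _ _))
      (by
        change Q (Ψ' 1) = T 1
        rw [hΨ'1, hQe])
      (fun o => by
        change Q (Ψ' (pr o)) = T (pull zeroth zeroth_continuous (pr o))
        rw [hΨ'2]
        cases o with
        | none =>
          change Q v = _
          rw [hQv]
          have : pull zeroth zeroth_continuous (pr (none : Option Γ)) = 0 := by
            ext k; simp [pr, zeroth]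
          rw [this, map_zero]
        | some γ => exact hQu γ) F
  set g : C(K (Option Γ), ℝ) := 1 - pr none with hg
  have hg0 : 0 ≤ g := fun k => sub_nonneg.2 (k none).2.2
  have hΨg : Ψ' g = e - v := by
    rw [hg, map_sub, hΨ'1, hΨ'2]
    rfl
  refine ⟨Ψ'.comp ((mulBy g).comp (pull forget forget_continuous)),
    hΨ'.comp ((mulBy_hom g hg0).comp (pull_hom _ _)), fun f => ?_, fun i hi => ?_⟩
  · simp only [ContinuousLinearMap.comp_apply]
    rw [hQΨ']
    congr 1
    ext k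
    simp [g, pr, zeroth]
    rfl
  · have hS : IsLatticeHom (Ψ'.comp ((mulBy g).comp (pull forget forget_continuous))) :=
      hΨ'.comp ((mulBy_hom g hg0).comp (pull_hom _ _))
    rw [← norm_abs_eq_norm, ← hS.abs]
    set t := Ψ'.comp ((mulBy g).comp (pull forget forget_continuous)) |P i| with ht
    have ht0 : 0 ≤ t := hS.nonneg (abs_nonneg _)
    have ht1 : t ≤ b i := by
      rw [ht, hb]
      simp only [ContinuousLinearMap.comp_apply]
      rw [← hcomp]
      apply hΨ'.mono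
      intro k
      have h1 : (0 : ℝ) ≤ |P i| (forget k) := by
        have : (0 : C(K Γ, ℝ)) ≤ |P i| := abs_nonneg _
        exact this (forget k)
      have h2 : g k ≤ 1 := by
        have := (k none).2.1
        simp [g, pr, this]
      change g k * |P i| (forget k) ≤ |P i| (forget k)
      exact mul_le_of_le_one_left h1 h2
    have ht2 : t ≤ (‖P i‖ + 1) • (e - δ⁻¹ • (w ⊓ δ • e)) := by
      rw [← hv, ← hΨg, ← map_smul, ht]
      simp only [ContinuousLinearMap.comp_apply]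
      apply hΨ'.mono
      intro k
      have h1 : |P i| (forget k) ≤ ‖P i‖ + 1 := by
        have h2 := (P i).norm_coe_le_norm (forget k)
        rw [Real.norm_eq_abs] at h2
        have h3 : |P i| (forget k) = |P i (forget k)| := rfl
        rw [h3]
        linarith
      have h2 : 0 ≤ g k := hg0 k
      change g k * |P i| (forget k) ≤ (‖P i‖ + 1) * g k
      rw [mul_comm]
      exact mul_le_mul_of_nonneg_right h1 h2
    have h4 : t ≤ z' i + δ • e :=
      key he0 hδ0 hδ1 (by linarith [norm_nonneg (P i)]) ht1 ht2 (hbw i hi) (hz0 i)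
    calc ‖t‖ ≤ ‖z' i + δ • e‖ := norm_le_of_le ht0 h4
      _ ≤ ‖z' i‖ + ‖δ • e‖ := norm_add_le _ _
      _ ≤ (c i + ε / 2) + ε / 2 := by
        gcongr
        · exact hzn i hi
        · rw [norm_smul, Real.norm_eq_abs, abs_of_pos hδ0]
          exact hδe
      _ = c i + ε := by ring

end Pool.Agent.X171.BL
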