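import Pool.Agent.X171.BL.Lift

/-!
# Renormings of `C([0,1]^Γ)` which are projective
-/

open Filter Topology

namespace Pool.Agent.X171.BL

universe v

variable {Γ : Type}

/-- the data of a renorming: functions `p 0 = 1, p 1, ..., p n` and weights `c 0, ..., c n > 0` -/
structure Wt (Γ : Type) where
  n : ℕ
  p : ℕ → C(K Γ, ℝ)
  c : ℕ → ℝ
  p_zero : p 0 = 1
  c_pos : ∀ i, 0 < c i

namespace Wt

variable (W : Wt Γ)

/-- the combination `a` dominates `f` -/
def Dom (f : C(K Γ, ℝ)) (a : ℕ → ℝ) : Prop :=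
  (∀ i, 0 ≤ a i) ∧ |f| ≤ ∑ i ∈ Finset.range (W.n + 1), a i • |W.p i|

/-- the value of a combination -/
noncomputable def val (a : ℕ → ℝ) : ℝ := ∑ i ∈ Finset.range (W.n + 1), a i * W.c i

/-- the norm -/
noncomputable def rho (f : C(K Γ, ℝ)) : ℝ := sInf {r | ∃ a, W.Dom f a ∧ W.val a = r}

lemma val_nonneg {a : ℕ → ℝ} (ha : ∀ i, 0 ≤ a i) : 0 ≤ W.val a :=
  Finset.sum_nonneg fun i _ => mul_nonneg (ha i) (W.c_pos i).le

lemma rho_nonneg (f : C(K Γ, ℝ)) : 0 ≤ W.rho f := by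
  apply Real.sInf_nonneg
  rintro r ⟨a, ha, rfl⟩
  exact W.val_nonneg ha.1

lemma rho_le {f : C(K Γ, ℝ)} {a : ℕ → ℝ} (h : W.Dom f a) : W.rho f ≤ W.val a := by
  apply csInf_le
  · refine ⟨0, ?_⟩
    rintro r ⟨b, hb, rfl⟩
    exact W.val_nonneg hb.1
  · exact ⟨a, h, rfl⟩

lemma dom_single {f : C(K Γ, ℝ)} {i : ℕ} (hi : i ∈ Finset.range (W.n + 1)) {r : ℝ} (hr : 0 ≤ r)
    (h : |f| ≤ r • |W.p i|) : W.Dom f (Pi.single i r) := by
  classical
  refine ⟨fun j => ?_, ?_⟩
  · by_cases hj : j = i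
    · subst hj; simpa using hr
    · simp [hj]
  · rw [Finset.sum_eq_single_of_mem i hi]
    · simpa using h
    · intro j _ hj
      rw [Pi.single_eq_of_ne hj, zero_smul]

lemma val_single {i : ℕ} (hi : i ∈ Finset.range (W.n + 1)) (r : ℝ) :
    W.val (Pi.single i r) = r * W.c i := by
  classical
  unfold val
  rw [Finset.sum_eq_single_of_mem i hi]
  · simp
  · intro j _ hj
    rw [Pi.single_eq_of_ne hj, zero_mul]

lemma abs_le_norm (f : C(K Γ, ℝ)) : |f| ≤ ‖f‖ • |(1 : C(K Γ, ℝ))| := by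
  intro k
  have h1 := f.norm_coe_le_norm k
  have h2 : ((‖f‖ • |(1 : C(K Γ, ℝ))|) k : ℝ) = ‖f‖ * |(1 : ℝ)| := rfl
  change |f k| ≤ (‖f‖ • |(1 : C(K Γ, ℝ))|) k
  rw [h2, abs_one, mul_one]
  exact h1

lemma zero_mem : 0 ∈ Finset.range (W.n + 1) := by simp

lemma dom_norm (f : C(K Γ, ℝ)) : W.Dom f (Pi.single 0 ‖f‖) :=
  W.dom_single W.zero_mem (norm_nonneg f) (by rw [W.p_zero]; exact abs_le_norm f)

lemma rho_le_norm (f : C(K Γ, ℝ)) : W.rho f ≤ W.c 0 * ‖f‖ := by
  refine (W.rho_le (W.dom_norm f)).trans_eq ?_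
  rw [W.val_single W.zero_mem, mul_comm]

lemma exists_lt {f : C(K Γ, ℝ)} {r : ℝ} (h : W.rho f < r) : ∃ a, W.Dom f a ∧ W.val a < r := by
  have hne : Set.Nonempty {r | ∃ a, W.Dom f a ∧ W.val a = r} := ⟨_, _, W.dom_norm f, rfl⟩
  obtain ⟨_, ⟨a, ha, rfl⟩, hr⟩ := exists_lt_of_csInf_lt hne h
  exact ⟨a, ha, hr⟩

lemma le_rho {f : C(K Γ, ℝ)} {t C : ℝ} (hC : 0 ≤ C) (h : ∀ a, W.Dom f a → t ≤ C * W.val a) :
    t ≤ C * W.rho f := by
  refine le_of_forall_pos_le_add fun ε hε => ?_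
  obtain ⟨a, ha, hr⟩ := W.exists_lt (f := f) (r := W.rho f + ε / (C + 1)) (by
    have : 0 < ε / (C + 1) := by positivity
    linarith)
  refine (h a ha).trans ?_
  calc C * W.val a ≤ C * (W.rho f + ε / (C + 1)) := by gcongr
    _ = C * W.rho f + ε * (C / (C + 1)) := by ring
    _ ≤ C * W.rho f + ε * 1 := by
      gcongr
      rw [div_le_one (by positivity)]
      linarith
    _ = C * W.rho f + ε := by ring

lemma rho_mono {f g : C(K Γ, ℝ)} (h : |f| ≤ |g|) : W.rho f ≤ W.rho g := by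
  have := W.le_rho (f := g) (t := W.rho f) zero_le_one fun a ha => by
    rw [one_mul]
    exact W.rho_le ⟨ha.1, h.trans ha.2⟩
  rwa [one_mul] at this

lemma rho_zero : W.rho 0 = 0 := by
  apply le_antisymm _ (W.rho_nonneg 0)
  refine (W.rho_le_norm 0).trans_eq ?_
  rw [norm_zero, mul_zero]

lemma rho_neg (f : C(K Γ, ℝ)) : W.rho (-f) = W.rho f :=
  le_antisymm (W.rho_mono (abs_neg f).le) (W.rho_mono (abs_neg f).ge)

lemma rho_add (f g : C(K Γ, ℝ)) : W.rho (f + g) ≤ W.rho f + W.rho g := by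
  refine le_of_forall_pos_le_add fun ε hε => ?_
  obtain ⟨a, ha, hr⟩ := W.exists_lt (f := f) (r := W.rho f + ε / 2) (by linarith)
  obtain ⟨b, hb, hs⟩ := W.exists_lt (f := g) (r := W.rho g + ε / 2) (by linarith)
  have h1 : W.Dom (f + g) (a + b) := by
    refine ⟨fun i => add_nonneg (ha.1 i) (hb.1 i), ?_⟩
    refine (abs_add_le f g).trans ((add_le_add ha.2 hb.2).trans_eq ?_)
    rw [← Finset.sum_add_distrib]
    refine Finset.sum_congr rfl fun i _ => ?_
    rw [Pi.add_apply, add_smul]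
  have h2 : W.val (a + b) = W.val a + W.val b := by
    unfold val
    rw [← Finset.sum_add_distrib]
    refine Finset.sum_congr rfl fun i _ => ?_
    rw [Pi.add_apply, add_mul]
  have h3 := W.rho_le h1
  rw [h2] at h3
  linarith

lemma rho_smul_le (r : ℝ) (f : C(K Γ, ℝ)) : W.rho (r • f) ≤ |r| * W.rho f := by
  refine W.le_rho (abs_nonneg r) fun a ha => ?_
  have h1 : W.Dom (r • f) (fun i => |r| * a i) := by
    refine ⟨fun i => mul_nonneg (abs_nonneg r) (ha.1 i), ?_⟩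
    have h2 : |r • f| = |r| • |f| := by
      ext k
      exact abs_mul r (f k)
    rw [h2]
    have h3 := smul_le_smul_of_nonneg_left ha.2 (abs_nonneg r)
    refine h3.trans_eq ?_
    rw [Finset.smul_sum]
    refine Finset.sum_congr rfl fun i _ => ?_
    rw [smul_smul]
  refine (W.rho_le h1).trans_eq ?_
  unfold val
  rw [Finset.mul_sum]
  refine Finset.sum_congr rfl fun i _ => ?_
  ring

/-- the constant in the comparison with the supremum norm -/
noncomputable def cst : ℝ := ∑ i ∈ Finset.range (W.n + 1), ‖W.p i‖ / W.c i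

lemma cst_nonneg : 0 ≤ W.cst :=
  Finset.sum_nonneg fun i _ => div_nonneg (norm_nonneg _) (W.c_pos i).le

lemma norm_le_rho (f : C(K Γ, ℝ)) : ‖f‖ ≤ W.cst * W.rho f := by
  refine W.le_rho W.cst_nonneg fun a ha => ?_
  have h1 : ‖f‖ ≤ ‖∑ i ∈ Finset.range (W.n + 1), a i • |W.p i|‖ := by
    apply norm_le_of_abs_le
    exact ha.2.trans (le_abs_self _)
  refine h1.trans ((norm_sum_le _ _).trans ?_)
  unfold val
  rw [Finset.mul_sum]
  refine Finset.sum_le_sum fun i hi => ?_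
  rw [norm_smul, norm_abs_eq_norm, Real.norm_eq_abs, abs_of_nonneg (ha.1 i)]
  have h2 : ‖W.p i‖ / W.c i ≤ W.cst :=
    Finset.single_le_sum (f := fun i => ‖W.p i‖ / W.c i)
      (fun i _ => div_nonneg (norm_nonneg _) (W.c_pos i).le) hi
  have h3 : a i * ‖W.p i‖ = ‖W.p i‖ / W.c i * (a i * W.c i) := by
    have := (W.c_pos i).ne'
    field_simp
  rw [h3]
  exact mul_le_mul_of_nonneg_right h2 (mul_nonneg (ha.1 i) (W.c_pos i).le)

lemma rho_p {i : ℕ} (hi : i ∈ Finset.range (W.n + 1)) : W.rho (W.p i) ≤ W.c i := by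
  have h := W.rho_le (W.dom_single hi zero_le_one (f := W.p i) (by rw [one_smul]))
  rwa [W.val_single hi, one_mul] at h

end Wt

/-- `C([0,1]^Γ)` with the norm `rho` -/
def RN (_W : Wt Γ) : Type := C(K Γ, ℝ)

variable (W : Wt Γ)

noncomputable instance : AddCommGroup (RN W) := inferInstanceAs (AddCommGroup C(K Γ, ℝ))
noncomputable instance : Module ℝ (RN W) := inferInstanceAs (Module ℝ C(K Γ, ℝ))
noncomputable instance : Lattice (RN W) := inferInstanceAs (Lattice C(K Γ, ℝ))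

noncomputable instance : NormedAddCommGroup (RN W) :=
  AddGroupNorm.toNormedAddCommGroup
    { toFun := fun f => W.rho f
      map_zero' := W.rho_zero
      add_le' := W.rho_add
      neg' := W.rho_neg
      eq_zero_of_map_eq_zero' := fun f hf => by
        have h := W.norm_le_rho f
        have hf' : W.rho f = 0 := hf
        rw [hf', mul_zero] at h
        exact norm_le_zero_iff.1 h }

lemma RN.norm_def (f : RN W) : ‖f‖ = W.rho f := rfl

noncomputable instance : NormedSpace ℝ (RN W) where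
  norm_smul_le := fun r f => W.rho_smul_le r f

/-- the identity as an isomorphism -/
noncomputable def toRN : C(K Γ, ℝ) ≃L[ℝ] RN W :=
  LinearEquiv.toContinuousLinearEquivOfBounds
    { toFun := fun f => f
      invFun := fun f => f
      map_add' := fun _ _ => rfl
      map_smul' := fun _ _ => rfl
      left_inv := fun _ => rfl
      right_inv := fun _ => rfl } (W.c 0) W.cst (fun f => W.rho_le_norm f)
      (fun f => W.norm_le_rho f)

lemma toRN_apply (f : C(K Γ, ℝ)) : toRN W f = (f : RN W) := rfl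

lemma toRN_symm_apply (f : RN W) : (toRN W).symm f = (f : C(K Γ, ℝ)) := rfl

instance : BanachLattice (RN W) where
  ordered := inferInstanceAs (IsOrderedAddMonoid C(K Γ, ℝ))
  smul := ⟨fun _ hr _ _ h k => mul_le_mul_of_nonneg_left (h k) hr⟩
  solid := ⟨fun _ _ h => W.rho_mono h⟩
  complete := (completeSpace_congr (toRN W).isUniformEmbedding (e := (toRN W).toEquiv)).1
    inferInstance

lemma toRN_hom : IsLatticeHom (toRN W : C(K Γ, ℝ) →L[ℝ] RN W) :=
  ⟨fun _ _ => rfl, fun _ _ => rfl⟩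

lemma toRN_symm_hom : IsLatticeHom ((toRN W).symm : RN W →L[ℝ] C(K Γ, ℝ)) :=
  ⟨fun _ _ => rfl, fun _ _ => rfl⟩

/-- if `S` is bounded by `C * c i` at the `p i` then `S` is bounded by `C * rho` -/
lemma bound_of_hom {X : Type v} [NormedAddCommGroup X] [Lattice X] [NormedSpace ℝ X]
    [BanachLattice X] {S : C(K Γ, ℝ) →L[ℝ] X} (hS : IsLatticeHom S) {C : ℝ} (hC : 0 ≤ C)
    (h : ∀ i ∈ Finset.range (W.n + 1), ‖S (W.p i)‖ ≤ C * W.c i) (f : C(K Γ, ℝ)) :
    ‖S f‖ ≤ C * W.rho f := by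
  refine W.le_rho hC fun a ha => ?_
  have h1 : ‖S f‖ ≤ ‖S (∑ i ∈ Finset.range (W.n + 1), a i • |W.p i|)‖ := by
    rw [← norm_abs_eq_norm (S f), ← hS.abs]
    exact norm_le_of_le (hS.nonneg (abs_nonneg _)) (hS.mono ha.2)
  refine h1.trans ?_
  rw [map_sum]
  refine (norm_sum_le _ _).trans ?_
  unfold Wt.val
  rw [Finset.mul_sum]
  refine Finset.sum_le_sum fun i hi => ?_
  rw [map_smul, norm_smul, hS.abs, norm_abs_eq_norm, Real.norm_eq_abs, abs_of_nonneg (ha.1 i)]
  calc a i * ‖S (W.p i)‖ ≤ a i * (C * W.c i) := by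
        have := ha.1 i
        gcongr
        exact h i hi
    _ = C * (a i * W.c i) := by ring

/-- **`(C([0,1]^Γ), rho)` is projective.** -/
theorem RN.projective : Projective.{v} (RN W) := by
  intro X Y _ _ _ _ _ _ _ _ Q hQ T hT ε hε
  rcases eq_or_ne T 0 with hT0 | hT0
  · subst hT0
    refine ⟨0, ⟨fun x y => ?_, fun x y => ?_⟩, fun p => by simp, ?_⟩
    · simp
    · simp
    · rw [norm_zero, norm_zero, mul_zero]
  · have hTn : 0 < ‖T‖ := norm_pos_iff.2 hT0
    obtain ⟨j, hj, hmin⟩ := Finset.exists_min_image (Finset.range (W.n + 1)) W.c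
      ⟨0, W.zero_mem⟩
    have hcj := W.c_pos j
    obtain ⟨S, hS1, hS2, hS3⟩ := main_lift Q hQ (T.comp (toRN W : C(K Γ, ℝ) →L[ℝ] RN W))
      (hT.comp (toRN_hom W)) (Finset.range (W.n + 1)) W.p (fun i => ‖T‖ * W.c i) (fun i hi => by
        refine (T.le_opNorm _).trans ?_
        gcongr
        exact W.rho_p hi) (ε * ‖T‖ * W.c j) (by positivity)
    refine ⟨S.comp ((toRN W).symm : RN W →L[ℝ] C(K Γ, ℝ)), hS1.comp (toRN_symm_hom W),
      fun f => hS2 f, ?_⟩
    refine ContinuousLinearMap.opNorm_le_bound _ (by positivity) fun f => ?_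
    refine bound_of_hom W hS1 (by positivity) (fun i hi => (hS3 i hi).trans ?_) f
    have := hmin i hi
    calc ‖T‖ * W.c i + ε * ‖T‖ * W.c j ≤ ‖T‖ * W.c i + ε * ‖T‖ * W.c i := by gcongr
      _ = (1 + ε) * ‖T‖ * W.c i := by ring

end Pool.Agent.X171.BL
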